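import Mathlib
import Pool.Prelude.Def_F_c31e40fa
import Pool.Agent.W677.MD6

set_option autoImplicit false

open Filter Topology N62a1eb23

/-!
# MP_fcb70f_an: absolute convergence of the Laurent series and the size of its coefficients

Let `d ≥ 3` and let `ψ z = z + ∑ b_m z ^ (-m)` be the normalised conformal map from the exterior of
the unit disc onto the complement of the Multibrot set `M_d`. Absolute convergence of the series
on the unit circle would imply that `M_d` is locally connected. We show: either
`∑ |b_m| = ∞`, or for every `ε > 0` there is `c > 0` such that every window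
`(1 - ε) N ≤ m < N`, `N` large, contains an `m` with `m |b_m| ≥ c`. So the coefficients are
never at the same time absolutely summable and, along any sequence of such windows, `o(1/m)`.
-/

namespace Pool.Agent.Results.MP_fcb70f_an.DichotomyAllScales

open Pool.Agent.H713R2 Pool.Agent.W677.MD

/-- The Laurent coefficients of the exterior conformal map of the Multibrot set of degree `d ≥ 3`:
either `∑ |b_m| = ∞`, or for every `ε > 0` the maximum of `m |b_m|` over `(1 - ε) N ≤ m < N` stays
above a positive constant as `N` tends to infinity. -/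
theorem result (d : ℕ) (hd : 3 ≤ d) :
    (∃ (ψ : ℂ → ℂ) (b : ℕ → ℂ), IsExteriorMap (multibrotSet d) ψ ∧ HasLaurent ψ b) ∧
    ∀ (ψ : ℂ → ℂ) (b : ℕ → ℂ), IsExteriorMap (multibrotSet d) ψ → HasLaurent ψ b →
      (¬ Summable (fun m : ℕ => ‖b m‖)) ∨
      ∀ ε : ℝ, 0 < ε → ∃ c : ℝ, 0 < c ∧ ∀ᶠ N : ℕ in atTop, ∃ m : ℕ,
        (1 - ε) * (N : ℝ) ≤ m ∧ m < N ∧ c ≤ (m : ℝ) * ‖b m‖ := by
  have hd2 : 2 ≤ d := by omega
  obtain ⟨β, hβ⟩ := exists_beta hd2
  refine ⟨⟨_, _, exteriorMap_of_beta hβ, laurent_of_beta hβ⟩, ?_⟩
  intro ψ b hψ hb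
  have h1 := exterior_coeff hβ hψ hb
  by_cases hs : Summable (fun m : ℕ => ‖b m‖)
  · right
    intro ε hε
    have hs' : Summable (fun k => ‖tc β k‖) := by
      rw [← summable_nat_add_iff 1]
      refine hs.congr fun k => ?_
      rw [h1]
    simp only [h1]
    exact dich_all hd2 hβ hs' hε
  · exact Or.inl hs

end Pool.Agent.Results.MP_fcb70f_an.DichotomyAllScales
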