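import Mathlib
import Pool.Prelude.Def_F_c31e40fa
import Pool.Agent.Y736.RN.L
import Pool.Agent.Y736.HG11

set_option autoImplicit false

open Filter Topology Set Metric MeasureTheory Complex N62a1eb23

namespace Pool.Agent.Results.MP_fcb70f_an.HarmonicDimensionAllDegrees

open Pool.Agent.H713R2

/-- The angles `t ∈ (0, 2π]` of the external rays landing at distance less than `r` from `c₀`. Up to
the factor `2π` its length is the harmonic measure (from infinity) of the disc of radius `r`. -/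
def angles (ψ : ℂ → ℂ) (c₀ : ℂ) (r : ℝ) : Set ℝ :=
  {t | t ∈ Ioc 0 (2 * Real.pi) ∧ ∃ ζ ∈ ball c₀ r,
    Tendsto (fun ρ : ℝ => ψ (ρ * exp (t * I))) (𝓝[>] 1) (𝓝 ζ)}

/-- The harmonic measure, up to the factor `2π`. -/
noncomputable def harm (ψ : ℂ → ℂ) (c₀ : ℂ) (r : ℝ) : ℝ := (volume (angles ψ c₀ r)).toReal

/-- The maximum of Green's function of the Multibrot set over a disc: Green's function is
`log ‖w‖` at the point `ψ w`. -/
noncomputable def green (ψ : ℂ → ℂ) (c₀ : ℂ) (r : ℝ) : ℝ :=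
  sSup {x | ∃ w : ℂ, 1 < ‖w‖ ∧ ‖ψ w - c₀‖ ≤ r ∧ Real.log ‖w‖ = x}

/-- `F r` is `r ^ (a + o(1))` as `r` tends to zero. -/
def HasExponent (F : ℝ → ℝ) (a : ℝ) : Prop :=
  Tendsto (fun r => Real.log (F r) / Real.log r) (𝓝[>] 0) (𝓝 a)

/-- The derivative of the `n`-th iterate of `z ^ d + c₀` at the critical value. -/
noncomputable def D (d : ℕ) (c₀ : ℂ) (n : ℕ) : ℝ := ‖deriv ((fun z : ℂ => z ^ d + c₀)^[n]) c₀‖

/-- The derivative at `c₀` of the `n`-th iterate of the critical point as a function of the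
parameter. -/
noncomputable def D' (d : ℕ) (c₀ : ℂ) (n : ℕ) : ℝ :=
  ‖deriv (fun c : ℂ => (fun z : ℂ => z ^ d + c)^[n] 0) c₀‖

/-- `g` is proper of degree at most `d` from the bounded open set `U` onto a set which contains the
closure of `U`. Polynomial-like maps of degree `d` have this property. -/
def PolynomialLike (d : ℕ) (g : ℂ → ℂ) (U : Set ℂ) : Prop :=
  IsOpen U ∧ Bornology.IsBounded U ∧ closure U ⊆ g '' U ∧
    (∀ K ⊆ g '' U, IsCompact K → IsCompact {z | z ∈ U ∧ g z ∈ K}) ∧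
    ∀ w ∈ g '' U, {z | z ∈ U ∧ g z = w}.encard ≤ d

/-- `z ↦ z ^ d + c` is renormalizable of period `p`. -/
def Renormalizable (d : ℕ) (c : ℂ) (p : ℕ) : Prop :=
  ∃ U : Set ℂ, PolynomialLike d ((fun z : ℂ => z ^ d + c)^[p]) U ∧ (0 : ℂ) ∈ U ∧
    ∀ n : ℕ, 1 ≤ n → (fun z : ℂ => z ^ d + c)^[n * p] 0 ∈ U

/-- `z ↦ z ^ d + c` is renormalizable of period `p` with bounds `C`: `U` contains the discs of some
radius `r` about the points `f^[n p] 0`, and its image has diameter at most `C r`. Under a priori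
bounds one has `Bounds d C c p` for a fixed `C` and infinitely many `p`. -/
def Bounds (d : ℕ) (C : ℝ) (c : ℂ) (p : ℕ) : Prop :=
  ∃ (U : Set ℂ) (r : ℝ), PolynomialLike d ((fun z : ℂ => z ^ d + c)^[p]) U ∧ 0 < r ∧
    (∀ n : ℕ, ball ((fun z : ℂ => z ^ d + c)^[n * p] 0) r ⊆ U) ∧
    ∀ z ∈ U, ∀ z' ∈ U,
      ‖(fun z : ℂ => z ^ d + c)^[p] z - (fun z : ℂ => z ^ d + c)^[p] z'‖ ≤ C * r

/-- Flatness at all scales: the harmonic measure and Green's function decay faster than every power,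
the derivatives with respect to the parameter grow subexponentially, and if `ψ` has a continuous
extension `F` to the circle (local connectivity of `M_d`) and `F ζ = c₀`, then the image under `F` of
every arc of small radius `δ` about `ζ` contains a point at distance at least `δ ^ α` from `c₀`, for
every `α > 0`. -/
def Flat (d : ℕ) (ψ : ℂ → ℂ) (c₀ : ℂ) : Prop :=
  (∀ κ : ℝ, 0 < κ → ∀ᶠ r : ℝ in 𝓝[>] 0, harm ψ c₀ r < r ^ κ ∧ green ψ c₀ r < r ^ κ) ∧
  (∀ a : ℝ, 0 < a → ∀ᶠ n : ℕ in atTop, D' d c₀ n < Real.exp (a * n)) ∧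
  ∀ F : ℂ → ℂ, ContinuousOn F {w : ℂ | 1 ≤ ‖w‖} → (∀ w : ℂ, 1 < ‖w‖ → F w = ψ w) →
    ∀ ζ : ℂ, ‖ζ‖ = 1 → F ζ = c₀ → ∀ α : ℝ, 0 < α → ∀ᶠ δ : ℝ in 𝓝[>] 0,
      ∃ ξ : ℂ, ‖ξ‖ = 1 ∧ ‖ξ - ζ‖ ≤ δ ∧ δ ^ α ≤ ‖F ξ - F ζ‖

/-- The local dimension of the harmonic measure of the Multibrot set `M_d`, `d ≥ 3`; the exterior map
`ψ` exists.

(1) If `c₀ ∈ M_d` has a Lyapunov exponent `χ > 0` at the critical value, then the harmonic measure of
the disc of radius `r` about `c₀` and the maximum of Green's function over it are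
`r ^ (log d / χ + o(1))`; if `ψ` has a continuous extension `F` to the circle (local connectivity of
`M_d`) and `F ζ = c₀`, then for every `ε > 0` and all small `δ` the image under `F` of the arc of
radius `δ` about `ζ` contains a point at distance at least `δ ^ (χ / log d + ε)` from `c₀`.

(2) For every period `p` the renormalizable parameters of period `p` at which the harmonic measure (or
Green's function) of the discs of radius `r` is at least `r ^ κ` for arbitrarily small `r` have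
Hausdorff dimension at most `κ / p`, and those at which the upper exponent of `D'` is at least `χ`
have dimension at most `log d / (p χ)`. All `c ∈ M_d` are renormalizable of period one.

(3) Outside a set of Hausdorff dimension zero `M_d` is flat at every infinitely renormalizable
parameter. It is flat at every infinitely renormalizable parameter at which the bounds are
subexponential in the period for infinitely many periods, in particular at those with a priori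
bounds. -/
theorem result : ∀ d : ℕ, 3 ≤ d →
    (∃ ψ : ℂ → ℂ, IsExteriorMap (multibrotSet d) ψ) ∧
    (∀ c ∈ multibrotSet d, Renormalizable d c 1) ∧
    ∀ ψ : ℂ → ℂ, IsExteriorMap (multibrotSet d) ψ →
      (∀ (χ : ℝ) (c₀ : ℂ), 0 < χ → c₀ ∈ multibrotSet d →
        Tendsto (fun n : ℕ => Real.log (D d c₀ n) / n) atTop (𝓝 χ) →
          HasExponent (harm ψ c₀) (Real.log d / χ) ∧
          HasExponent (green ψ c₀) (Real.log d / χ) ∧
          ∀ F : ℂ → ℂ, ContinuousOn F {w : ℂ | 1 ≤ ‖w‖} → (∀ w : ℂ, 1 < ‖w‖ → F w = ψ w) →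
            ∀ ζ : ℂ, ‖ζ‖ = 1 → F ζ = c₀ → ∀ ε : ℝ, 0 < ε → ∀ᶠ δ : ℝ in 𝓝[>] 0,
              ∃ ξ : ℂ, ‖ξ‖ = 1 ∧ ‖ξ - ζ‖ ≤ δ ∧ δ ^ (χ / Real.log d + ε) ≤ ‖F ξ - F ζ‖) ∧
      (∀ p : ℕ, 1 ≤ p →
        (∀ κ : ℝ, 0 < κ →
          dimH {c : ℂ | Renormalizable d c p ∧ ∃ᶠ r : ℝ in 𝓝[>] 0, r ^ κ ≤ harm ψ c r} ≤
            ENNReal.ofReal (κ / p) ∧
          dimH {c : ℂ | Renormalizable d c p ∧ ∃ᶠ r : ℝ in 𝓝[>] 0, r ^ κ ≤ green ψ c r} ≤
            ENNReal.ofReal (κ / p)) ∧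
        ∀ χ : ℝ, 0 < χ →
          dimH {c : ℂ | Renormalizable d c p ∧ ∀ a : ℝ, a < χ →
            ∃ᶠ n : ℕ in atTop, Real.exp (a * n) ≤ D' d c n} ≤
              ENNReal.ofReal (Real.log d / (p * χ))) ∧
      dimH {c : ℂ | {p : ℕ | Renormalizable d c p}.Infinite ∧ ¬ Flat d ψ c} = 0 ∧
      ∀ c : ℂ, (∀ ε : ℝ, 0 < ε → {p : ℕ | Bounds d (Real.exp (ε * p)) c p}.Infinite) →
        Flat d ψ c := by
  intro d hd3
  have hd : 2 ≤ d := by omega
  obtain ⟨β, hβ⟩ := exists_beta (d := d) hd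
  refine ⟨⟨_, exteriorMap_of_beta hβ⟩, fun c hc => Pool.Agent.Y736.RN.ren_one hd hc, ?_⟩
  intro ψ hψ
  refine ⟨?_, ?_, ?_, ?_⟩
  · intro χ c₀ hχ hc₀ hlim
    have h : Pool.Agent.Y298.CA.Lyap d χ c₀ := ⟨hχ, hc₀, hlim⟩
    refine ⟨Pool.Agent.Y736.HG.vol_exp hd h hψ, Pool.Agent.Y736.HG.sup_exp hd h hψ, ?_⟩
    intro F hF hE ζ hζ hFζ ε hε
    exact Pool.Agent.Y736.HG.loop hd h hψ hF hE hζ hFζ hε
  · intro p hp
    refine ⟨?_, ?_⟩
    · intro κ hκ
      refine ⟨(dimH_mono ?_).trans (Pool.Agent.Y736.RN.dim_big hd hp hψ hκ),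
        (dimH_mono ?_).trans (Pool.Agent.Y736.RN.dim_big hd hp hψ hκ)⟩
      · rintro c ⟨h1, h2⟩
        exact ⟨h1, Pool.Agent.Y736.RN.big_of_vol hd hψ
          (Pool.Agent.Y736.RN.ren_mem (d := d) hp h1) hκ h2⟩
      · rintro c ⟨h1, h2⟩
        exact ⟨h1, Pool.Agent.Y736.RN.big_of_green h2⟩
    · intro χ hχ
      exact Pool.Agent.Y736.RN.dim_deriv (d := d) hd hp hχ
  · apply Pool.Agent.Y736.RN.dim_inf hd hψ
    rintro c ⟨h1, h2⟩
    refine ⟨h1, ?_⟩
    by_contra hcon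
    push Not at hcon
    obtain ⟨p, hp, hp0⟩ := h1.exists_gt 0
    exact h2 (Pool.Agent.Y736.RN.not_big_flat hd hψ
      (Pool.Agent.Y736.RN.ren_mem (d := d) hp0 hp) hcon)
  · intro c h
    obtain ⟨p, ⟨U, r, hU, hr, hball, hdiam⟩, hp0⟩ := (h 1 one_pos).exists_gt 0
    have hren : Renormalizable d c p := by
      refine ⟨U, hU, ?_, fun n _ => hball n (mem_ball_self hr)⟩
      have h1 := hball 0 (mem_ball_self hr)
      simpa using h1
    have hc := Pool.Agent.Y736.RN.ren_mem (d := d) hp0 hren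
    apply Pool.Agent.Y736.RN.not_big_flat hd hψ hc
    apply Pool.Agent.Y736.RN.not_big_of_weak hd hψ hc
    intro ε hε
    refine (h ε hε).mono ?_
    rintro q ⟨U, r, _, hr, hball, hdiam⟩
    exact ⟨U, r, hr, hball, hdiam⟩

end Pool.Agent.Results.MP_fcb70f_an.HarmonicDimensionAllDegrees
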