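import Mathlib
import Pool.Prelude.Def_F_c31e40fa
import Pool.Agent.Y811.PC.Fin3

set_option autoImplicit false

/-!
# MP_fcb70f_an: the parabolic contact law for the Multibrot sets of degree at least three

The exact exponential rate at which the exterior map of a Multibrot set approaches a parabolic parameter,
at every parabolic parameter.

Proved by the project PC, the parts by helpers 48, 67, 70, 93, 151, 153, 154, 165, 167, 185, 274, 297,
331, 349, 350, 356, 366, 388, 419, 421, 429, 447, 448, 458, 475, 484, 510, 547, 587, 592, 606, 658, 672,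
678, 888, 978, 983 and 811; the tools on the exterior map by helpers 677, 712, 713 and 736.
-/

open Filter Topology Set Complex N62a1eb23

namespace Pool.Agent.Results.MP_fcb70f_an.ParabolicContactLaw

open Pool.Agent.H713R2 Pool.Agent.H712R2 Pool.Agent.Y811.PC

/-- The `m`-th iterate of `z ^ d + c`. -/
def iter (d m : ℕ) (c z : ℂ) : ℂ := (fun z : ℂ => z ^ d + c)^[m] z

/-- The derivative of the `m`-th iterate of `z ^ d + c`: the multiplier, at a point of period `m`. -/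
noncomputable def mult (d m : ℕ) (c z : ℂ) : ℂ := deriv (iter d m c) z

/-- `z₀` is a point of exact period `m` of `z ^ d + c₀` and its multiplier is a primitive `q`-th root of
unity: `c₀` is a parabolic parameter. -/
def IsParabolicPoint (d m q : ℕ) (c₀ z₀ : ℂ) : Prop :=
  1 ≤ m ∧ 1 ≤ q ∧ iter d m c₀ z₀ = z₀ ∧ (∀ j, 0 < j → j < m → iter d j c₀ z₀ ≠ z₀) ∧
    IsPrimitiveRoot (mult d m c₀ z₀) q

/-- The parabolic contact law for the Multibrot set of degree `d ≥ 3`: its exterior map `ψ` exists, and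
for every parabolic parameter `c₀`, `z₀` in its parabolic cycle of period `m`, the multiplier `λ` of
order `q`:

(A) In the scale of the multiplier. For small `ε`, let `s(r)` be the supremum of `‖w‖ - 1` over the `w`,
`ψ w` `ε`-close to `c₀`, for which `z ^ d + ψ w` has a point `α` of period `m`, `ε`-close to `z₀`, with
multiplier `r`-close to `λ`. Then `r * log (1 / s(r)) → 2 π m log d / q` as `r → 0`. If `ψ` extends
continuously to the circle, then `‖multiplier - λ‖ * log (1 / (‖w‖ - 1))` has lower limit at least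
`2 π m log d / q` at every point `ζ` of the circle over `c₀`, with equality for some `ζ`.

(B) In the scale of the parameter, `λ ≠ 1`. Let `κ` be the derivative at `c₀` of the multiplier of the
point `al c` of period `m` which continues `z₀`. Then `κ ≠ 0` and the contact law holds with exponent `1`
and constant `2 π m log d / (q ‖κ‖)`.

(C) In the scale of the parameter, `λ = 1`. Let `D₁` and `D₂` be the derivative with respect to `c`, and
the second derivative with respect to `z`, of the `m`-th iterate at `c₀, z₀`. They are not `0` and the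
contact law holds with exponent `1 / 2` and constant `2 π m log d / √(2 ‖D₁‖ ‖D₂‖)`.

(D) Hence on the boundary of the main component, at `z₀ - z₀ ^ d`: if `l = d z₀ ^ (d - 1)` is a primitive
`q`-th root of unity with `q ≥ 2`, exponent `1` and constant `2 π log d ‖1 - l‖ ‖z₀‖ / (q (d - 1))`; if
`l = 1`, exponent `1 / 2` and constant `2 π log d √(‖z₀‖ / (2 (d - 1)))`. -/
theorem result (d : ℕ) (hd : 3 ≤ d) :
    (∃ ψ : ℂ → ℂ, IsExteriorMap (multibrotSet d) ψ) ∧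
    (∀ (m q : ℕ) (c₀ z₀ : ℂ), IsParabolicPoint d m q c₀ z₀ →
      (∃ ε₀ : ℝ, 0 < ε₀ ∧ ∀ ψ : ℂ → ℂ, IsExteriorMap (multibrotSet d) ψ →
        (∀ ε : ℝ, 0 < ε → ε ≤ ε₀ → Tendsto (fun r : ℝ => r * Real.log (1 / sSup
          {h : ℝ | ∃ w α : ℂ, 1 < ‖w‖ ∧ h = ‖w‖ - 1 ∧ ‖ψ w - c₀‖ ≤ ε ∧ ‖α - z₀‖ ≤ ε ∧
            iter d m (ψ w) α = α ∧ ‖mult d m (ψ w) α - mult d m c₀ z₀‖ ≤ r}))
          (𝓝[>] 0) (𝓝 (2 * Real.pi * m * Real.log d / q))) ∧
        ∀ F : ℂ → ℂ, ContinuousOn F {w : ℂ | 1 ≤ ‖w‖} → (∀ w : ℂ, 1 < ‖w‖ → F w = ψ w) →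
          (∀ ζ : ℂ, ‖ζ‖ = 1 → F ζ = c₀ → ∀ δ : ℝ, 0 < δ → ∃ η : ℝ, 0 < η ∧ ∀ w : ℂ, 1 < ‖w‖ →
            ‖w - ζ‖ < η → ∀ α : ℂ, ‖α - z₀‖ ≤ ε₀ → iter d m (ψ w) α = α →
              2 * Real.pi * m * Real.log d / q - δ ≤
                ‖mult d m (ψ w) α - mult d m c₀ z₀‖ * Real.log (1 / (‖w‖ - 1))) ∧
          ∃ ζ : ℂ, ‖ζ‖ = 1 ∧ F ζ = c₀ ∧ ∀ δ η : ℝ, 0 < δ → 0 < η → ∃ w α : ℂ, 1 < ‖w‖ ∧
            ‖w - ζ‖ < η ∧ ‖α - z₀‖ < η ∧ iter d m (ψ w) α = α ∧
              ‖mult d m (ψ w) α - mult d m c₀ z₀‖ * Real.log (1 / (‖w‖ - 1)) ≤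
                2 * Real.pi * m * Real.log d / q + δ) ∧
      (mult d m c₀ z₀ ≠ 1 → ∃ (al : ℂ → ℂ) (κ : ℂ), AnalyticAt ℂ al c₀ ∧ al c₀ = z₀ ∧
        (∀ᶠ c in 𝓝 c₀, iter d m c (al c) = al c) ∧
        HasDerivAt (fun c => mult d m c (al c)) κ c₀ ∧ κ ≠ 0 ∧
          ∀ ψ : ℂ → ℂ, IsExteriorMap (multibrotSet d) ψ →
            ContactLaw ψ c₀ 1 (2 * Real.pi * m * Real.log d / (q * ‖κ‖))) ∧
      (mult d m c₀ z₀ = 1 →
        deriv (fun c => iter d m c z₀) c₀ ≠ 0 ∧ deriv (deriv (iter d m c₀)) z₀ ≠ 0 ∧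
          ∀ ψ : ℂ → ℂ, IsExteriorMap (multibrotSet d) ψ →
            ContactLaw ψ c₀ (1 / 2) (2 * Real.pi * m * Real.log d /
              √(2 * ‖deriv (fun c => iter d m c z₀) c₀‖ * ‖deriv (deriv (iter d m c₀)) z₀‖)))) ∧
    ∀ ψ : ℂ → ℂ, IsExteriorMap (multibrotSet d) ψ → ∀ z₀ : ℂ,
      (∀ q : ℕ, 2 ≤ q → IsPrimitiveRoot (d * z₀ ^ (d - 1)) q →
        ContactLaw ψ (z₀ - z₀ ^ d) 1
          (2 * Real.pi * Real.log d * ‖1 - d * z₀ ^ (d - 1)‖ * ‖z₀‖ / (q * (d - 1)))) ∧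
      ((d : ℂ) * z₀ ^ (d - 1) = 1 → ContactLaw ψ (z₀ - z₀ ^ d) (1 / 2)
        (2 * Real.pi * Real.log d * √(‖z₀‖ / (2 * (d - 1))))) := by
  have hd2 : 2 ≤ d := by omega
  obtain ⟨β, hβ⟩ := exists_beta (d := d) hd2
  refine ⟨⟨_, exteriorMap_of_beta hβ⟩, ?_, ?_⟩
  · rintro m q c₀ z₀ ⟨hm, hq, hfix, hper, hmul⟩
    exact main_law hSAT hTRANS1 hPRIM hd2 c₀ z₀ m q hm hq hfix hper hmul
  · intro ψ hψ z₀
    refine ⟨?_, ?_⟩
    · intro q hq hl
      have h := main_card hd2 hq hl hψ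
      have e4 : 2 * Real.pi * Real.log d / q * (‖1 - (d : ℂ) * z₀ ^ (d - 1)‖ * ‖z₀‖ / (d - 1)) =
          2 * Real.pi * Real.log d * ‖1 - (d : ℂ) * z₀ ^ (d - 1)‖ * ‖z₀‖ / (q * (d - 1)) := by
        rw [div_mul_div_comm]
        ring
      rw [e4] at h
      exact h
    · intro hl
      exact main_cusp hd2 hl hψ

end Pool.Agent.Results.MP_fcb70f_an.ParabolicContactLaw
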