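import Mathlib
import Pool.Prelude.Def_F_c31e40fa
import Pool.Agent.Y272.LC.Out
import Pool.Agent.Y272.LC.Mod1c

set_option autoImplicit false

/-!
# MP_fcb70f_an: quantitative local connectivity of the Multibrot sets at almost every boundary point
-/

open MeasureTheory Filter Metric Complex Topology

namespace Pool.Agent.Results.MP_fcb70f_an.QuantitativeLocalConnectivity

open N62a1eb23 Pool.Agent.H713R2 Pool.Agent.H712R2

/-- Local connectivity of the Multibrot set `M_d` with an explicit modulus at harmonic-almost every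
boundary point: the part of `M_d` at distance at most `r` from `c₀` is contained in a compact
connected subset of `M_d` which is at distance at most `r * exp (4 d (log log (1 / r)) ^ 6)`. -/
theorem result (d : ℕ) (hd : 2 ≤ d) :
    (∃ ψ : ℂ → ℂ, IsExteriorMap (multibrotSet d) ψ) ∧
    ∀ ψ : ℂ → ℂ, IsExteriorMap (multibrotSet d) ψ →
      ∀ᵐ θ : ℝ, ∃ c₀ ∈ frontier (multibrotSet d),
        Tendsto (fun r : ℝ => ψ (r * Complex.exp (θ * I))) (𝓝[>] 1) (𝓝 c₀) ∧
        ∀ᶠ r : ℝ in 𝓝[>] 0, ∃ Q : Set ℂ, IsCompact Q ∧ IsConnected Q ∧ Q ⊆ multibrotSet d ∧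
          multibrotSet d ∩ closedBall c₀ r ⊆ Q ∧
          Q ⊆ closedBall c₀ (r * Real.exp (4 * d * Real.log (Real.log (1 / r)) ^ 6)) := by
  obtain ⟨β, hβ⟩ := Pool.Agent.H713R2.exists_beta (d := d) hd
  exact ⟨⟨_, exteriorMap_of_beta hβ⟩, fun ψ hψ =>
    Pool.Agent.Y272.LC.lc_final Pool.Agent.Y272.LC.M1C.t hd hψ⟩

end Pool.Agent.Results.MP_fcb70f_an.QuantitativeLocalConnectivity
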